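import Pool.Agent.Helper62.VR.Criterion

open Pool.Agent.Helper62.VR

/-- A simple vertex operator algebra `V` over the complex numbers has a real form stable under a
given set `G` of invertible linear operators if and only if it has an antilinear automorphism
`s` commuting with `G` such that `s²` has no negative real eigenvalue. -/
theorem Pool.Agent.Results.MP_63fa0d_al.NegativeEigenvalue.result {V : Type*} [AddCommGroup V]
    [Module ℂ V] (A : VOA V) (hA : A.IsSimple) (G : Set (V ≃ₗ[ℂ] V)) :
    A.HasStableRealForm G ↔ ∃ s : V ≃ₛₗ[starRingEnd ℂ] V, A.IsAntiAut s ∧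
      (∀ g ∈ G, ∀ v : V, g (s v) = s (g v)) ∧
      ∀ r : ℝ, r < 0 → ∀ v : V, s (s v) = (r : ℂ) • v → v = 0 :=
  criterion_iff A hA G
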