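import Pool.Agent.Helper62.VR.Quat

open Pool.Agent.Helper62.VR

/-- A `C₂`-cofinite vertex operator algebra `V` over the complex numbers with `V_n = 0` for
`n < 0` that is isomorphic to its complex conjugate has an antilinear automorphism whose order is
a power of two, and it has a real form if it has no automorphism of order two (both statements
relative to a set `G` of invertible linear operators). -/
theorem Pool.Agent.Results.MP_63fa0d_al.TwoPowerOrder.result {V : Type*} [AddCommGroup V]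
    [Module ℂ V] (A : VOA V) (hpos : A.NonnegGraded) (hC : A.C₂Cofinite)
    (G : Set (V ≃ₗ[ℂ] V))
    (hbar : ∃ s : V ≃ₛₗ[starRingEnd ℂ] V, A.IsAntiAut s ∧
      ∀ g ∈ G, ∀ v : V, g (s v) = s (g v)) :
    (∃ s : V ≃ₛₗ[starRingEnd ℂ] V, A.IsAntiAut s ∧ (∀ g ∈ G, ∀ v : V, g (s v) = s (g v)) ∧
      (∃ m : ℕ, ∀ v : V, (⇑s)^[2 ^ m] v = v) ∧
      A.HasRealFormOn (fixedSq s) ∧
      ∀ n : ℤ, Even (Module.finrank ℂ ↥(negSq s ⊓ A.wt n))) ∧
    ((∀ g : V ≃ₗ[ℂ] V, A.IsAut g → (∀ b ∈ G, ∀ v : V, b (g v) = g (b v)) →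
      (∀ v : V, g (g v) = v) → ∀ v : V, g v = v) → A.HasStableRealForm G) := by
  obtain ⟨⟨s, hs, hsG, hm⟩, h2⟩ := main_twoPower A hpos hC G hbar
  exact ⟨⟨s, hs, hsG, hm, realFormOn_fixedSq A s hs, even_negSq A s hs⟩, h2⟩
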